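import Mathlib

namespace Pool.Agent.Results.MP_72c4d1_al.No

/-- Affine permutations of `ZMod n`. -/
def Aff (n : ℕ) : Set (Equiv.Perm (ZMod n)) :=
  {σ | ∃ (a : (ZMod n)ˣ) (b : ZMod n), ∀ i, σ i = a * i + b}

/-- The lifted dihedral group. -/
def D (n : ℕ) : Set (Equiv.Perm (ZMod n)) :=
  {σ | ∃ (u : (ZMod n)ˣ) (b : ZMod n), (u : ZMod n).val ^ 2 ≡ 1 [MOD ∏ p ∈ n.primeFactors, p] ∧
    ∀ i, σ i = u * i + b}

/-- The coset `σ D`. -/
def coset (n : ℕ) (σ : Equiv.Perm (ZMod n)) : Set (Equiv.Perm (ZMod n)) :=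
  {τ | ∃ h ∈ D n, τ = σ * h}

/-- Closed under products of `N` elements. -/
def Nary {G : Type} [Monoid G] (N : ℕ) (C : Set G) : Prop :=
  ∀ l : List G, l.length = N → (∀ x ∈ l, x ∈ C) → l.prod ∈ C

theorem sq {n : ℕ} [NeZero n] (u : ZMod n) (h : u ^ 2 = 1) :
    u.val ^ 2 ≡ 1 [MOD ∏ p ∈ n.primeFactors, p] := by
  refine Nat.ModEq.of_dvd (Nat.prod_primeFactors_dvd n) ((ZMod.natCast_eq_natCast_iff _ _ _).1 ?_)
  simpa using h

theorem result (n : ℕ) (hn : 5 ≤ n) (h6 : Nat.gcd n 6 = 1) (σ : Equiv.Perm (ZMod n)) (N : ℕ)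
    (hN : 2 ≤ N) (h : Nary N (coset n σ)) : σ ∈ Aff n := by
  have : NeZero n := ⟨by omega⟩
  obtain ⟨m, rfl⟩ := Nat.exists_eq_add_of_le' hN
  have h1 : (1 : Equiv.Perm (ZMod n)) ∈ D n := ⟨1, 0, sq _ (by simp), by simp⟩
  have key : ∀ k ∈ D n, ∃ (u : (ZMod n)ˣ) (b : ZMod n), ∀ i, (σ * k * σ ^ m) i = u * i + b := by
    intro k hk
    obtain ⟨g, ⟨u, b, -, hg⟩, he⟩ := h (σ :: (σ * k) :: List.replicate m σ) (by simp) (by
      simp only [List.mem_cons, List.mem_replicate]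
      rintro x (rfl | rfl | ⟨-, rfl⟩)
      · exact ⟨1, h1, by simp⟩
      · exact ⟨k, hk, rfl⟩
      · exact ⟨1, h1, by simp⟩)
    refine ⟨u, b, fun i => ?_⟩
    rw [← hg, ← mul_left_cancel (he.symm.trans (by simp) : σ * g = σ * (σ * k * σ ^ m))]
  have conj : ∀ k ∈ D n, ∃ (u : (ZMod n)ˣ) (b : ZMod n), ∀ i, σ (k i) = u * σ i + b := by
    intro k hk
    obtain ⟨u, b, hu⟩ := key k hk
    obtain ⟨v, c, hv⟩ := key 1 h1
    refine ⟨u * v⁻¹, b - u * v⁻¹ * c, fun i => ?_⟩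
    obtain ⟨j, rfl⟩ := (σ ^ m).surjective i
    have a1 : σ (k ((σ ^ m) j)) = u * j + b := hu j
    have a2 : σ ((σ ^ m) j) = v * j + c := hv j
    rw [a1, a2, Units.val_mul]
    linear_combination (-(u : ZMod n) * j) * v.inv_mul
  have h2 : IsUnit ((2 : ℕ) : ZMod n) := (ZMod.isUnit_iff_coprime 2 n).2
    (Nat.Coprime.coprime_dvd_left (by norm_num) (Nat.Coprime.symm h6))
  obtain ⟨c, hc⟩ := h2.exists_right_inv
  obtain ⟨u, b, hu⟩ := conj (Equiv.addRight c) ⟨1, c, sq _ (by simp), by simp⟩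
  obtain ⟨v, d, hv⟩ := conj (Equiv.neg _) ⟨-1, 0, sq _ (by simp), by simp⟩
  simp only [Equiv.coe_addRight, Equiv.neg_apply] at hu hv
  push_cast at hc
  obtain ⟨a, h3⟩ : ∃ a, ∀ i, σ (i + 1) = σ i + a := by
    refine ⟨u * d + b - v * b - d, fun i => ?_⟩
    have e1 := hu (i + c)
    have e2 := hv (-i - c)
    have e3 := hu (-i - c)
    have e4 := hv i
    have e5 := hv (-i)
    rw [show i + c + c = i + 1 by linear_combination hc] at e1
    rw [show -(-i - c) = i + c by ring] at e2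
    rw [show -i - c + c = -i by ring] at e3
    rw [neg_neg] at e5
    linear_combination e1 + u * e2 - v * e3 - e5
  have h4 : ∀ k : ℕ, σ k = a * k + σ 0 := by
    intro k
    induction k with
    | zero => simp
    | succ k ih => push_cast; rw [h3, ih]; ring
  have h5 : ∀ i, σ i = a * i + σ 0 := fun i => by
    have := h4 i.val
    rwa [ZMod.natCast_zmod_val] at this
  obtain ⟨j, hj⟩ := σ.surjective (1 + σ 0)
  have ha : IsUnit a := IsUnit.of_mul_eq_one j (by linear_combination hj - h5 j)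
  exact ⟨ha.unit, σ 0, by simpa using h5⟩

end Pool.Agent.Results.MP_72c4d1_al.No
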